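import Mathlib

/-!
# A `K`-sequence with all gaps between 3 and 9 and no value divisible by 11 (MP_3fd052_nt)
-/

namespace Pool.Agent.Results.MP_3fd052_nt.AvoidEleven

/-- The lower degree `inf {d ∈ ℕ₊ : k_n - k_{n-1} = d for infinitely many n}` (`⊤` for the empty set). -/
noncomputable def lowerDeg (K : ℕ → ℕ) : ℕ∞ :=
  sInf {x : ℕ∞ | ∃ d : ℕ, x = (d : ℕ∞) ∧ 1 ≤ d ∧
    {n : ℕ | 1 ≤ n ∧ (K n : ℤ) - (K (n - 1) : ℤ) = (d : ℤ)}.Infinite}

/-- `b` is a `K`-sequence: constant on each block `[k_n, k_{n+1})`, and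
`b (k_n) - b (k_{n-1}) = b n` for `n ≥ 1`. -/
def IsKSeq (K : ℕ → ℕ) (b : ℕ → ℤ) : Prop :=
  (∀ n i : ℕ, K n ≤ i → i < K (n + 1) → b i = b (K n)) ∧
  (∀ n : ℕ, 1 ≤ n → b (K n) - b (K (n - 1)) = b n)

/-! ## Construction -/

def ok (c s s' : ZMod 11) (d : ℕ) : Prop :=
  3 ≤ d ∧ d ≤ 9 ∧ (∀ j : ℕ, 1 ≤ j → j ≤ d → c + j * s ≠ 0) ∧
    ∃ r : ℕ, 6 ≤ r ∧ r ≤ 10 ∧ c + d * s + r * s' = 0

lemma key : ∀ s s' : ZMod 11, s ≠ 0 → s' ≠ 0 → s ≠ s' → ∀ r ∈ Finset.Icc (6 : ℕ) 10,
    ∃ d ∈ Finset.Icc (3 : ℕ) 9, (∀ j ∈ Finset.Icc (1 : ℕ) d,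
        -(r : ZMod 11) * s + (j : ZMod 11) * s ≠ 0) ∧
      ∃ r' ∈ Finset.Icc (6 : ℕ) 10, -(r : ZMod 11) * s + (d : ZMod 11) * s + (r' : ZMod 11) * s' = 0 := by
  decide

lemma exists_ok (c s s' : ZMod 11) (hs : s ≠ 0) (hs' : s' ≠ 0) (hne : s ≠ s')
    (hr : ∃ r : ℕ, 6 ≤ r ∧ r ≤ 10 ∧ c + r * s = 0) : ∃ d, ok c s s' d := by
  obtain ⟨r, h1, h2, h3⟩ := hr
  have hc : c = -(r : ZMod 11) * s := by linear_combination h3
  obtain ⟨d, hd, hj, r', hr', he⟩ := key s s' hs hs' hne r (Finset.mem_Icc.mpr ⟨h1, h2⟩)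
  rw [Finset.mem_Icc] at hd hr'
  refine ⟨d, hd.1, hd.2, ?_, r', hr'.1, hr'.2, ?_⟩
  · intro j h4 h5
    rw [hc]; exact hj j (Finset.mem_Icc.mpr ⟨h4, h5⟩)
  · rw [hc]; exact he

open Classical in
noncomputable def ch (c s s' : ZMod 11) : ℕ :=
  if h : ∃ d, ok c s s' d then Classical.choose h else 3

lemma ch_spec (c s s' : ZMod 11) (h : ∃ d, ok c s s' d) : ok c s s' (ch c s s') := by
  unfold ch; rw [dif_pos h]; exact Classical.choose_spec h

def blk (c s : ℤ) (d : ℕ) : List ℤ := (List.range d).map (fun j : ℕ => c + ((j : ℤ) + 1) * s)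

lemma blk_length (c s : ℤ) (d : ℕ) : (blk c s d).length = d := by simp [blk]

lemma blk_getD (c s : ℤ) (d i : ℕ) (hi : i < d) :
    (blk c s d).getD i 0 = c + ((i : ℤ) + 1) * s := by
  simp [blk, List.getD_eq_getElem?_getD, hi]

/-- all values `B_0, …, B_{k_m - 1}` -/
noncomputable def L : ℕ → List ℤ
  | 0 => []
  | 1 => [1, 2, 3, 4]
  | (m + 2) => L (m + 1) ++ blk ((L (m + 1)).getD ((L (m + 1)).length - 1) 0)
      ((L (m + 1)).getD (m + 1) 0)
      (ch ((L (m + 1)).getD ((L (m + 1)).length - 1) 0 : ℤ) ((L (m + 1)).getD (m + 1) 0 : ℤ)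
        ((L (m + 1)).getD (m + 2) 0 : ℤ))

structure Inv (l : List ℤ) (m : ℕ) : Prop where
  len : 3 * m + 4 ≤ l.length
  nz : ∀ i, i < l.length → ((l.getD i 0 : ℤ) : ZMod 11) ≠ 0
  diff : ∀ i, i + 1 < l.length → ((l.getD (i + 1) 0 : ℤ) : ZMod 11) ≠ ((l.getD i 0 : ℤ) : ZMod 11)
  lst : ∃ r : ℕ, 6 ≤ r ∧ r ≤ 10 ∧
    ((l.getD (l.length - 1) 0 : ℤ) : ZMod 11) + r * ((l.getD (m + 1) 0 : ℤ) : ZMod 11) = 0

lemma inv_base : Inv (L 1) 0 := by
  constructor
  · simp [L]
  · intro i hi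
    simp only [L, List.length_cons, List.length_nil] at hi
    interval_cases i <;> simp [L] <;> decide
  · intro i hi
    simp only [L, List.length_cons, List.length_nil] at hi
    have hi' : i < 3 := by omega
    interval_cases i <;> simp [L] <;> decide
  · exact ⟨9, by norm_num, by norm_num, by simp [L]; decide⟩

/-- the data of one step -/
lemma step_ok (m : ℕ) (h : Inv (L (m + 1)) m) :
    ok (((L (m + 1)).getD ((L (m + 1)).length - 1) 0 : ℤ) : ZMod 11)
      (((L (m + 1)).getD (m + 1) 0 : ℤ) : ZMod 11) (((L (m + 1)).getD (m + 2) 0 : ℤ) : ZMod 11)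
      (ch ((L (m + 1)).getD ((L (m + 1)).length - 1) 0 : ℤ) ((L (m + 1)).getD (m + 1) 0 : ℤ)
        ((L (m + 1)).getD (m + 2) 0 : ℤ)) := by
  apply ch_spec
  have hlen := h.len
  exact exists_ok _ _ _ (h.nz _ (by omega)) (h.nz _ (by omega))
    (Ne.symm (h.diff (m + 1) (by omega))) h.lst

lemma getD_app_left (l l' : List ℤ) (i : ℕ) (h : i < l.length) :
    (l ++ l').getD i 0 = l.getD i 0 := by
  rw [List.getD_append _ _ _ _ h]

lemma getD_app_right (l l' : List ℤ) (i : ℕ) (h : l.length ≤ i) :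
    (l ++ l').getD i 0 = l'.getD (i - l.length) 0 := by
  rw [List.getD_append_right _ _ _ _ h]

lemma inv_step (m : ℕ) (h : Inv (L (m + 1)) m) : Inv (L (m + 2)) (m + 1) := by
  have hok := step_ok m h
  have hlen := h.len
  have hnz := h.nz
  have hdiff := h.diff
  rw [L]
  set l := L (m + 1) with hl
  set c := l.getD (l.length - 1) 0 with hc
  set s := l.getD (m + 1) 0 with hs
  set s' := l.getD (m + 2) 0 with hs'
  set d := ch (c : ZMod 11) (s : ZMod 11) (s' : ZMod 11) with hd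
  obtain ⟨h3, h9, hj, r, hr1, hr2, hr3⟩ := hok
  have hlen' : (l ++ blk c s d).length = l.length + d := by
    rw [List.length_append, blk_length]
  constructor
  · omega
  · intro i hi
    by_cases hil : i < l.length
    · rw [getD_app_left _ _ _ hil]; exact hnz i hil
    · rw [getD_app_right _ _ _ (by omega), blk_getD _ _ _ _ (by omega)]
      have := hj (i - l.length + 1) (by omega) (by omega)
      push_cast at this ⊢
      exact this
  · intro i hi
    by_cases hil : i + 1 < l.length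
    · rw [getD_app_left _ _ _ hil, getD_app_left _ _ _ (by omega)]; exact hdiff i hil
    · have hsnz : (s : ZMod 11) ≠ 0 := hnz (m + 1) (by omega)
      rw [getD_app_right _ _ (i + 1) (by omega), blk_getD _ _ _ _ (by omega)]
      by_cases hi2 : i < l.length
      · have e1 : i = l.length - 1 := by omega
        rw [getD_app_left _ _ _ hi2]
        have e2 : i + 1 - l.length = 0 := by omega
        rw [e2, e1, ← hc]
        push_cast
        intro hcon
        apply hsnz
        linear_combination hcon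
      · rw [getD_app_right _ _ i (by omega), blk_getD _ _ _ _ (by omega)]
        have e2 : i + 1 - l.length = (i - l.length) + 1 := by omega
        rw [e2]
        push_cast
        intro hcon
        apply hsnz
        linear_combination hcon
  · refine ⟨r, hr1, hr2, ?_⟩
    rw [hlen', getD_app_right _ _ _ (by omega), blk_getD _ _ _ _ (by omega),
      getD_app_left _ _ _ (by omega)]
    have e1 : ((l.length + d - 1 - l.length : ℕ) : ℤ) + 1 = (d : ℤ) := by omega
    rw [e1]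
    push_cast
    exact hr3

lemma inv (m : ℕ) : Inv (L (m + 1)) m := by
  induction m with
  | zero => exact inv_base
  | succ m ih => exact inv_step m ih

noncomputable def K (m : ℕ) : ℕ := (L m).length

lemma K_zero : K 0 = 0 := rfl
lemma K_one : K 1 = 4 := by simp [K, L]

lemma K_step (m : ℕ) : K m + 3 ≤ K (m + 1) ∧ K (m + 1) ≤ K m + 9 := by
  cases m with
  | zero => rw [K_zero, K_one]; omega
  | succ m =>
    have hok := step_ok m (inv m)
    obtain ⟨h3, h9, _⟩ := hok
    unfold K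
    rw [show m + 1 + 1 = m + 2 from rfl, L, List.length_append, blk_length]
    omega

lemma K_strictMono : StrictMono K := strictMono_nat_of_lt_succ (fun m => by
  have := K_step m; omega)

lemma K_ge (m : ℕ) : 3 * m + 1 ≤ K (m + 1) := by
  have := (inv m).len
  unfold K; omega

/-- the value `B_n` -/
noncomputable def B (n : ℕ) : ℤ := (L (n + 1)).getD n 0

lemma L_getD_succ (m i : ℕ) (h : i < K m) : (L (m + 1)).getD i 0 = (L m).getD i 0 := by
  cases m with
  | zero => simp [K_zero] at h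
  | succ m =>
    rw [show m + 1 + 1 = m + 2 from rfl, L]
    exact getD_app_left _ _ _ h

lemma L_getD_eq (m k i : ℕ) (h : i < K m) : (L (m + k)).getD i 0 = (L m).getD i 0 := by
  induction k with
  | zero => rfl
  | succ k ih =>
    rw [← add_assoc, L_getD_succ, ih]
    exact lt_of_lt_of_le h (K_strictMono.monotone (by omega))

lemma lt_K (n : ℕ) : n < K (n + 1) := by have := K_ge n; omega

lemma L_getD_B (m i : ℕ) (h : i < K m) : (L m).getD i 0 = B i := by
  unfold B
  rcases le_total m (i + 1) with h1 | h1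
  · obtain ⟨k, hk⟩ := Nat.exists_eq_add_of_le h1
    rw [hk, L_getD_eq m k i h]
  · obtain ⟨k, hk⟩ := Nat.exists_eq_add_of_le h1
    rw [hk, L_getD_eq (i + 1) k i (lt_K i)]

lemma B_ne (n : ℕ) : ((B n : ℤ) : ZMod 11) ≠ 0 := by
  unfold B
  exact (inv n).nz n (lt_K n)

/-- the recursion `B_n - B_{n-1} = B_m` for `n ≥ 1` in block `m` -/
lemma B_rec (m n : ℕ) (hn : 1 ≤ n) (h1 : K m ≤ n) (h2 : n < K (m + 1)) :
    B n - B (n - 1) = B m := by
  cases m with
  | zero =>
    rw [zero_add, K_one] at h2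
    have e : ∀ i, i < 4 → B i = (i : ℤ) + 1 := by
      intro i hi
      rw [← L_getD_B 1 i (by rw [K_one]; exact hi)]
      interval_cases i <;> simp [L]
    rw [e n h2, e (n - 1) (by omega), e 0 (by omega)]
    omega
  | succ m =>
    have hK1 : 1 ≤ K (m + 1) := by have := K_ge m; omega
    have hm : m + 1 < K (m + 1) := by
      have := (inv m).len
      unfold K; omega
    rw [← L_getD_B (m + 1 + 1) n h2, ← L_getD_B (m + 1 + 1) (n - 1) (by omega),
      ← L_getD_B (m + 1) (m + 1) hm]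
    have hlen2 : K (m + 1 + 1) = K (m + 1) +
        (ch ((L (m + 1)).getD ((L (m + 1)).length - 1) 0 : ℤ) ((L (m + 1)).getD (m + 1) 0 : ℤ)
        ((L (m + 1)).getD (m + 2) 0 : ℤ)) := by
      unfold K
      rw [show m + 1 + 1 = m + 2 from rfl, L, List.length_append, blk_length]
    rw [show m + 1 + 1 = m + 2 from rfl, L]
    rw [hlen2] at h2
    unfold K at h1 h2 hK1
    rw [getD_app_right _ _ n h1, blk_getD _ _ _ _ (by omega)]
    by_cases h3 : n - 1 < (L (m + 1)).length
    · rw [getD_app_left _ _ _ h3]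
      have e1 : n - 1 = (L (m + 1)).length - 1 := by omega
      have e2 : n - (L (m + 1)).length = 0 := by omega
      rw [e1, e2]; push_cast; ring
    · rw [getD_app_right _ _ (n - 1) (by omega), blk_getD _ _ _ _ (by omega)]
      have e2 : ((n - (L (m + 1)).length : ℕ) : ℤ) = ((n - 1 - (L (m + 1)).length : ℕ) : ℤ) + 1 := by
        omega
      rw [e2]; ring

lemma exists_idx (n : ℕ) : ∃ m, K m ≤ n ∧ n < K (m + 1) := by
  have hex : ∃ m, n < K (m + 1) := ⟨n, lt_K n⟩
  classical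
  refine ⟨Nat.find hex, ?_, Nat.find_spec hex⟩
  by_contra hcon
  push Not at hcon
  cases hm : Nat.find hex with
  | zero => rw [hm, K_zero] at hcon; omega
  | succ m =>
    rw [hm] at hcon
    have := Nat.find_min hex (m := m) (by omega)
    exact this hcon

noncomputable def idx (n : ℕ) : ℕ := Classical.choose (exists_idx n)

lemma idx_spec (n : ℕ) : K (idx n) ≤ n ∧ n < K (idx n + 1) := Classical.choose_spec (exists_idx n)

lemma idx_eq (n m : ℕ) (h1 : K m ≤ n) (h2 : n < K (m + 1)) : idx n = m := by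
  obtain ⟨h3, h4⟩ := idx_spec n
  have h5 : idx n < m + 1 := K_strictMono.lt_iff_lt.mp (lt_of_le_of_lt h3 h2)
  have h6 : m < idx n + 1 := K_strictMono.lt_iff_lt.mp (lt_of_le_of_lt h1 h4)
  omega

noncomputable def b (n : ℕ) : ℤ := B (idx n)

lemma b_K (m : ℕ) : b (K m) = B m := by
  unfold b
  rw [idx_eq (K m) m le_rfl (K_strictMono (by omega))]

/-- There are a strictly increasing `K` with `k_0 = 0`, all of whose gaps lie between `3` and `9`
(so its lower degree is at least `3`), and a `K`-sequence `b` none of whose values is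
divisible by `11`. -/
theorem result : ∃ (K : ℕ → ℕ) (b : ℕ → ℤ),
    K 0 = 0 ∧ StrictMono K ∧ (∀ n, K n + 3 ≤ K (n + 1) ∧ K (n + 1) ≤ K n + 9) ∧
    3 ≤ lowerDeg K ∧ IsKSeq K b ∧ ∀ n : ℕ, ¬ (11 : ℤ) ∣ b n := by
  refine ⟨K, b, K_zero, K_strictMono, K_step, ?_, ⟨?_, ?_⟩, ?_⟩
  · unfold lowerDeg
    apply le_sInf
    rintro x ⟨d, rfl, hd, hinf⟩
    obtain ⟨n, hn1, hn2⟩ := hinf.nonempty
    have h1 := K_step (n - 1)
    have e : n - 1 + 1 = n := by omega
    rw [e] at h1
    have h3 : 3 ≤ d := by omega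
    exact_mod_cast h3
  · intro n i h1 h2
    rw [b_K]
    unfold b
    rw [idx_eq i n h1 h2]
  · intro n hn
    rw [b_K, b_K]
    obtain ⟨h1, h2⟩ := idx_spec n
    exact B_rec (idx n) n hn h1 h2
  · intro n hdvd
    have := B_ne (idx n)
    apply this
    rw [ZMod.intCast_zmod_eq_zero_iff_dvd]
    exact hdvd

end Pool.Agent.Results.MP_3fd052_nt.AvoidEleven
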